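import Mathlib
import Pool.Agent.H14.FunDefs

set_option autoImplicit false

namespace Pool.Agent.Results.MP_42f001_co.PrimeFun

open Pool.Agent.H14.FunDefs

/-- set form: inside `S`, `y` is determined by `T` -/
def Det {V : Type} (G : SimpleGraph V) (S : Set V) (y : V) (T : Finset V) : Prop :=
  ∀ z ∈ S, ∀ w ∈ S, z ≠ y → w ≠ y → z ∉ T → w ∉ T → (∀ x ∈ T, G.Adj x z ↔ G.Adj x w) →
    (G.Adj y z ↔ G.Adj y w)

theorem of_det {V : Type} (G : SimpleGraph V) (y : V) (T : Finset V) (hy : y ∉ T)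
    (h : Det G Set.univ y T) :
    ∃ x : Fin T.card → V, Function.Injective x ∧ (∀ i, x i ≠ y) ∧ IsFunctionOf G y x := by
  classical
  let x : Fin T.card → V := fun i => (T.equivFin.symm i : V)
  have hx : ∀ i, x i ∈ T := fun i => (T.equivFin.symm i).2
  have hs : ∀ t ∈ T, ∃ i, x i = t := fun t ht => ⟨T.equivFin ⟨t, ht⟩, by simp [x]⟩
  refine ⟨x, fun i j hij => T.equivFin.symm.injective (Subtype.ext hij),
    fun i hi => hy (hi ▸ hx i), ?_⟩
  refine ⟨fun p => decide (∃ w, w ≠ y ∧ w ∉ T ∧ (p = fun i => decide (G.Adj (x i) w)) ∧ G.Adj y w), ?_⟩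
  intro z hz hzx
  have hzT : z ∉ T := fun h' => by obtain ⟨i, hi⟩ := hs z h'; exact hzx i hi.symm
  rw [decide_eq_decide]
  constructor
  · intro ha; exact ⟨z, hz, hzT, rfl, ha⟩
  · rintro ⟨w, hw, hwT, hp, ha⟩
    refine (h z trivial w trivial hz hw hzT hwT fun t ht => ?_).2 ha
    obtain ⟨i, rfl⟩ := hs t ht
    have := congrFun hp i
    simpa using this

theorem vfun_le {V : Type} (G : SimpleGraph V) (y : V) (T : Finset V) (hy : y ∉ T)
    (h : Det G Set.univ y T) : vfun G y ≤ T.card :=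
  Nat.sInf_le (of_det G y T hy h)

theorem vfun_le_card {V : Type} [Fintype V] (G : SimpleGraph V) (y : V) :
    vfun G y ≤ Fintype.card V := by
  classical
  refine (vfun_le G y (Finset.univ.erase y) (by simp) ?_).trans (Finset.card_le_univ _)
  intro z _ w _ hz _ hzT
  exact absurd (Finset.mem_erase.2 ⟨hz, Finset.mem_univ _⟩) hzT

theorem det_of {V : Type} [Finite V] (G : SimpleGraph V) (y : V) :
    ∃ T : Finset V, y ∉ T ∧ T.card ≤ vfun G y ∧ Det G Set.univ y T := by
  classical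
  haveI := Fintype.ofFinite V
  have hne : {k | ∃ x : Fin k → V, Function.Injective x ∧ (∀ i, x i ≠ y) ∧ IsFunctionOf G y x}.Nonempty :=
    ⟨_, of_det G y (Finset.univ.erase y) (by simp) fun z _ w _ hz _ hzT =>
      absurd (Finset.mem_erase.2 ⟨hz, Finset.mem_univ _⟩) hzT⟩
  obtain ⟨x, _, hy, f, hf⟩ := Nat.sInf_mem hne
  refine ⟨Finset.univ.image x, by simpa using hy, Finset.card_image_le.trans (by simp [vfun]), ?_⟩
  intro z _ w _ hz hw hzT hwT hp
  have h1 := hf z hz fun i hi => hzT (by simp [hi])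
  have h2 := hf w hw fun i hi => hwT (by simp [hi])
  have e : (fun i => decide (G.Adj (x i) z)) = fun i => decide (G.Adj (x i) w) := by
    funext i; rw [decide_eq_decide]; exact hp _ (by simp)
  rw [e, ← h2, decide_eq_decide] at h1
  exact h1

theorem bdd {V : Type} [Finite V] (G : SimpleGraph V) :
    BddAbove {m | ∃ S : Set V, S.Nonempty ∧ m = sInf (Set.range (vfun (G.induce S)))} := by
  classical
  haveI := Fintype.ofFinite V
  refine ⟨Fintype.card V, ?_⟩
  rintro m ⟨S, ⟨y, hy⟩, rfl⟩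
  refine (Nat.sInf_le (Set.mem_range_self (⟨y, hy⟩ : S))).trans ((vfun_le_card _ _).trans ?_)
  exact Fintype.card_subtype_le _

theorem down {V : Type} [Finite V] (G : SimpleGraph V) (k : ℕ) (h : gfun G ≤ k) (S : Set V)
    (hS : S.Nonempty) : ∃ y ∈ S, ∃ T : Finset V, (T : Set V) ⊆ S ∧ y ∉ T ∧ T.card ≤ k ∧ Det G S y T := by
  classical
  have h1 : sInf (Set.range (vfun (G.induce S))) ≤ k := (le_csSup (bdd G) ⟨S, hS, rfl⟩).trans h
  obtain ⟨y0, hy0⟩ := hS
  obtain ⟨y, hy⟩ := Nat.sInf_mem (⟨_, ⟨y0, hy0⟩, rfl⟩ : (Set.range (vfun (G.induce S))).Nonempty)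
  obtain ⟨T, hT1, hT2, hT3⟩ := det_of (G.induce S) y
  refine ⟨y, y.2, T.image Subtype.val, ?_, ?_, Finset.card_image_le.trans (by omega), ?_⟩
  · intro t ht
    obtain ⟨s, _, rfl⟩ := Finset.mem_image.1 (Finset.mem_coe.1 ht)
    exact s.2
  · intro ht
    obtain ⟨s, hs, e⟩ := Finset.mem_image.1 ht
    exact hT1 (Subtype.ext e ▸ hs)
  · intro z hz w hw hzy hwy hzT hwT hp
    exact hT3 ⟨z, hz⟩ trivial ⟨w, hw⟩ trivial (fun e => hzy (congrArg Subtype.val e))
      (fun e => hwy (congrArg Subtype.val e))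
      (fun h' => hzT (Finset.mem_image.2 ⟨_, h', rfl⟩)) (fun h' => hwT (Finset.mem_image.2 ⟨_, h', rfl⟩))
      fun x hx => hp x (Finset.mem_image.2 ⟨_, hx, rfl⟩)

theorem up {V : Type} (G : SimpleGraph V) (k : ℕ)
    (h : ∀ S : Set V, S.Nonempty → ∃ y : S, vfun (G.induce S) y ≤ k) : gfun G ≤ k := by
  refine csSup_le' ?_
  rintro m ⟨S, hS, rfl⟩
  obtain ⟨y, hy⟩ := h S hS
  exact (Nat.sInf_le (Set.mem_range_self y)).trans hy

/-- `D` dominates `M` for the relation `R`. -/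
def Dom {V : Type} (R : V → V → Prop) (M : Set V) (D : Finset V) : Prop :=
  (D : Set V) ⊆ M ∧ ∀ z ∈ M, z ∉ D → ∃ d ∈ D, R d z

theorem core {V : Type} (G : SimpleGraph V) (k : ℕ) (M : Set V) (hM : IsModule G M)
    (a b : V) (ha : a ∈ M) (hb : b ∈ M) (hab : a ≠ b)
    (h : ∀ S : Set V, S ⊆ M → S.Nonempty →
      ∃ y ∈ S, ∃ T : Finset V, (T : Set V) ⊆ S ∧ y ∉ T ∧ T.card ≤ k ∧ Det G S y T)
    (E : Finset V) (hE : (E : Set V) ⊆ M)
    (h0 : (∃ D ⊆ E, Dom G.Adj M D) ∨ ∀ D, Dom G.Adj M D → E.card + k + 1 < D.card)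
    (h1 : (∃ D ⊆ E, Dom (fun u v => ¬ G.Adj u v) M D) ∨
      ∀ D, Dom (fun u v => ¬ G.Adj u v) M D → E.card + k + 1 < D.card) :
    vfun G a ≤ E.card + k + 1 ∨ ∃ y, vfun G y ≤ E.card + k + 1 := by
  classical
  have out : ∀ z, z ∉ M → ∀ u ∈ M, ∀ v ∈ M, (G.Adj u z ↔ G.Adj v z) := by
    intro z hz u hu v hv
    rcases hM z hz with h' | h'
    · exact ⟨fun _ => (h' v hv).symm, fun _ => (h' u hu).symm⟩
    · exact ⟨fun h => absurd h.symm (h' u hu), fun h => absurd h.symm (h' v hv)⟩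
  by_cases hne : (M \ E).Nonempty
  · right
    obtain ⟨y, hy, T, hT, hyT, hc, hd⟩ := h (M \ E) Set.diff_subset hne
    obtain ⟨x0, hx0, hx0y⟩ : ∃ x0 ∈ M, x0 ≠ y := by
      by_cases e : a = y
      · exact ⟨b, hb, fun e' => hab (e.trans e'.symm)⟩
      · exact ⟨a, ha, e⟩
    let U := insert x0 (T ∪ E)
    have hUM : ∀ u ∈ U, u ∈ M := by
      intro u hu
      rcases Finset.mem_insert.1 hu with rfl | hu
      · exact hx0
      · rcases Finset.mem_union.1 hu with hu | hu
        · exact (hT hu).1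
        · exact hE hu
    have hyU : y ∉ U := by
      intro hu
      rcases Finset.mem_insert.1 hu with e | hu
      · exact hx0y e.symm
      · rcases Finset.mem_union.1 hu with hu | hu
        · exact hyT hu
        · exact hy.2 hu
    have hTU : ∀ t ∈ T, t ∈ U := fun t ht => Finset.mem_insert_of_mem (Finset.mem_union_left _ ht)
    have hEU : ∀ t ∈ E, t ∈ U := fun t ht => Finset.mem_insert_of_mem (Finset.mem_union_right _ ht)
    have hcard : (insert y (T ∪ E)).card ≤ E.card + k + 1 :=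
      (Finset.card_insert_le _ _).trans (by have := Finset.card_union_le T E; omega)
    have hsub : ((insert y (T ∪ E) : Finset V) : Set V) ⊆ M := by
      intro u hu
      rcases Finset.mem_insert.1 (Finset.mem_coe.1 hu) with rfl | hu
      · exact hy.1
      · exact hUM u (Finset.mem_insert_of_mem hu)
    have mixed : ∀ z ∈ M, ∀ w, w ∉ M → z ≠ y → z ∉ U → (∀ x ∈ U, G.Adj x z ↔ G.Adj x w) →
        (G.Adj y z ↔ G.Adj y w) := by
      intro z hz w hw hzy hzU hp
      have hzE : z ∉ E := fun h' => hzU (hEU z h')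
      have hzT : z ∉ T := fun h' => hzU (hTU z h')
      by_cases hyw : G.Adj y w
      · have all : ∀ x ∈ U, G.Adj x z := fun x hx => (hp x hx).2 ((out w hw x (hUM x hx) y hy.1).2 hyw)
        refine ⟨fun _ => hyw, fun _ => ?_⟩
        by_contra hyz
        rcases h1 with ⟨D, hDE, _, hD⟩ | h1
        · obtain ⟨d, hd1, hd2⟩ := hD z hz fun h' => hzE (hDE h')
          exact hd2 (all d (hEU d (hDE hd1)))
        · refine absurd (h1 (insert y (T ∪ E)) ⟨hsub, fun v hv hvD => ?_⟩) (not_lt.2 hcard)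
          simp only [Finset.mem_insert, Finset.mem_union, not_or] at hvD
          by_cases hv' : ∀ t ∈ T, G.Adj t v
          · refine ⟨y, Finset.mem_insert_self _ _, fun hyv => hyz ?_⟩
            exact (hd z ⟨hz, hzE⟩ v ⟨hv, hvD.2.2⟩ hzy hvD.1 hzT hvD.2.1
              fun t ht => ⟨fun _ => hv' t ht, fun _ => all t (hTU t ht)⟩).2 hyv
          · push Not at hv'
            obtain ⟨t, ht, ht'⟩ := hv'
            exact ⟨t, Finset.mem_insert_of_mem (Finset.mem_union_left _ ht), ht'⟩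
      · have all : ∀ x ∈ U, ¬ G.Adj x z := fun x hx h' =>
          hyw ((out w hw x (hUM x hx) y hy.1).1 ((hp x hx).1 h'))
        refine ⟨fun hyz => ?_, fun h' => absurd h' hyw⟩
        exfalso
        rcases h0 with ⟨D, hDE, _, hD⟩ | h0
        · obtain ⟨d, hd1, hd2⟩ := hD z hz fun h' => hzE (hDE h')
          exact all d (hEU d (hDE hd1)) hd2
        · refine absurd (h0 (insert y (T ∪ E)) ⟨hsub, fun v hv hvD => ?_⟩) (not_lt.2 hcard)
          simp only [Finset.mem_insert, Finset.mem_union, not_or] at hvD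
          by_cases hv' : ∀ t ∈ T, ¬ G.Adj t v
          · refine ⟨y, Finset.mem_insert_self _ _, ?_⟩
            exact (hd z ⟨hz, hzE⟩ v ⟨hv, hvD.2.2⟩ hzy hvD.1 hzT hvD.2.1
              fun t ht => ⟨fun h' => absurd h' (all t (hTU t ht)), fun h' => absurd h' (hv' t ht)⟩).1 hyz
          · push Not at hv'
            obtain ⟨t, ht, ht'⟩ := hv'
            exact ⟨t, Finset.mem_insert_of_mem (Finset.mem_union_left _ ht), ht'⟩
    refine ⟨y, (vfun_le G y U hyU ?_).trans
      ((Finset.card_insert_le _ _).trans (by have := Finset.card_union_le T E; omega))⟩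
    intro z _ w _ hzy hwy hzU hwU hp
    by_cases hz : z ∈ M <;> by_cases hw : w ∈ M
    · exact hd z ⟨hz, fun h' => hzU (hEU z h')⟩ w ⟨hw, fun h' => hwU (hEU w h')⟩ hzy hwy
        (fun h' => hzU (hTU z h')) (fun h' => hwU (hTU w h')) fun t ht => hp t (hTU t ht)
    · exact mixed z hz w hw hzy hzU hp
    · exact (mixed w hw z hz hwy hwU fun x hx => (hp x hx).symm).symm
    · rw [out z hz y hy.1 x0 hx0, out w hw y hy.1 x0 hx0]
      exact hp x0 (Finset.mem_insert_self _ _)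
  · left
    have hME : ∀ u ∈ M, u ∈ E := fun u hu => by
      by_contra h'; exact hne ⟨u, hu, h'⟩
    refine (vfun_le G a (E.erase a) (by simp) ?_).trans
      ((Finset.card_erase_le).trans (by omega))
    intro z _ w _ hza hwa hz hw hp
    have hz' : z ∉ M := fun h' => hz (Finset.mem_erase.2 ⟨hza, hME z h'⟩)
    have hw' : w ∉ M := fun h' => hw (Finset.mem_erase.2 ⟨hwa, hME w h'⟩)
    rw [out z hz' a ha b hb, out w hw' a ha b hb]
    exact hp b (Finset.mem_erase.2 ⟨hab.symm, hME b hb⟩)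

theorem pick {V : Type} (P Q : Finset V → Prop) (M : Set V) (k : ℕ)
    (hP : ∀ D, P D → (D : Set V) ⊆ M) (hQ : ∀ D, Q D → (D : Set V) ⊆ M)
    (D : Finset V) (hD : P D) (hc : D.card ≤ k + 1) :
    ∃ E : Finset V, (E : Set V) ⊆ M ∧ E.card ≤ 3 * k + 3 ∧
      ((∃ D ⊆ E, P D) ∨ ∀ D, P D → E.card + k + 1 < D.card) ∧
      ((∃ D ⊆ E, Q D) ∨ ∀ D, Q D → E.card + k + 1 < D.card) := by
  classical
  by_cases h : ∃ D', Q D' ∧ D'.card ≤ 2 * k + 2
  · obtain ⟨D', h1, h2⟩ := h
    refine ⟨D ∪ D', ?_, by have := Finset.card_union_le D D'; omega,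
      Or.inl ⟨D, Finset.subset_union_left, hD⟩, Or.inl ⟨D', Finset.subset_union_right, h1⟩⟩
    rw [Finset.coe_union]
    exact Set.union_subset (hP D hD) (hQ D' h1)
  · push Not at h
    exact ⟨D, hP D hD, by omega, Or.inl ⟨D, Finset.Subset.refl _, hD⟩,
      Or.inr fun D' h' => by have := h D' h'; omega⟩

theorem step {V : Type} [Finite V] [Nonempty V] (G : SimpleGraph V) (k : ℕ)
    (h : ∀ M : Set V, Prime (G.induce M) → gfun (G.induce M) ≤ k) :
    ∃ y, vfun G y ≤ 4 * k + 4 := by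
  classical
  by_cases hV : ∃ a b : V, a ≠ b
  · obtain ⟨M, hM⟩ : ∃ M, Minimal (fun M : Set V => IsModule G M ∧ ∃ a ∈ M, ∃ b ∈ M, a ≠ b) M := by
      obtain ⟨a, b, hab⟩ := hV
      exact exists_minimal_of_wellFoundedLT _
        ⟨Set.univ, fun z hz => absurd trivial hz, a, trivial, b, trivial, hab⟩
    obtain ⟨hmod, a, ha, b, hb, hab⟩ := hM.prop
    have hprime : Prime (G.induce M) := by
      intro N hN
      by_cases hN2 : ∃ u ∈ N, ∃ v ∈ N, u ≠ v
      · right; left
        obtain ⟨u, hu, v, hv, huv⟩ := hN2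
        have hsub : Subtype.val '' N ⊆ M := by rintro _ ⟨s, _, rfl⟩; exact s.2
        have hle : M ⊆ Subtype.val '' N := by
          refine hM.le_of_le ⟨fun z hz => ?_, u, ⟨u, hu, rfl⟩, v, ⟨v, hv, rfl⟩,
            fun e => huv (Subtype.ext e)⟩ hsub
          by_cases hzM : z ∈ M
          · rcases hN ⟨z, hzM⟩ (fun h' => hz ⟨_, h', rfl⟩) with h' | h'
            · left; rintro _ ⟨s, hs, rfl⟩; exact h' s hs
            · right; rintro _ ⟨s, hs, rfl⟩; exact h' s hs
          · rcases hmod z hzM with h' | h'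
            · left; intro s hs; exact h' s (hsub hs)
            · right; intro s hs; exact h' s (hsub hs)
        ext s
        obtain ⟨t, ht, e⟩ := hle s.2
        simp only [Set.mem_univ, iff_true]
        exact Subtype.ext e ▸ ht
      · push Not at hN2
        rcases N.eq_empty_or_nonempty with e | ⟨u, hu⟩
        · exact Or.inl e
        · exact Or.inr (Or.inr ⟨u, Set.eq_singleton_iff_unique_mem.2 ⟨hu, fun v hv => hN2 v hv u hu⟩⟩)
    have hk := h M hprime
    have hS : ∀ S : Set V, S ⊆ M → S.Nonempty →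
        ∃ y ∈ S, ∃ T : Finset V, (T : Set V) ⊆ S ∧ y ∉ T ∧ T.card ≤ k ∧ Det G S y T := by
      rintro S hSM ⟨s, hs⟩
      obtain ⟨y, hy, T, hT1, hT2, hT3, hT4⟩ :=
        down (G.induce M) k hk {u | u.1 ∈ S} ⟨⟨s, hSM hs⟩, hs⟩
      refine ⟨y, hy, T.image Subtype.val, ?_, ?_, Finset.card_image_le.trans hT3, ?_⟩
      · intro t ht
        obtain ⟨s, hs, rfl⟩ := Finset.mem_image.1 (Finset.mem_coe.1 ht)
        exact hT1 hs
      · intro ht
        obtain ⟨s, hs, e⟩ := Finset.mem_image.1 ht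
        exact hT2 (Subtype.ext e ▸ hs)
      · intro z hz w hw hzy hwy hzT hwT hp
        exact hT4 ⟨z, hSM hz⟩ hz ⟨w, hSM hw⟩ hw (fun e => hzy (congrArg Subtype.val e))
          (fun e => hwy (congrArg Subtype.val e))
          (fun h' => hzT (Finset.mem_image.2 ⟨_, h', rfl⟩)) (fun h' => hwT (Finset.mem_image.2 ⟨_, h', rfl⟩))
          fun x hx => hp x (Finset.mem_image.2 ⟨_, hx, rfl⟩)
    obtain ⟨E, hE, hEc, h0, h1⟩ : ∃ E : Finset V, (E : Set V) ⊆ M ∧ E.card ≤ 3 * k + 3 ∧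
        ((∃ D ⊆ E, Dom G.Adj M D) ∨ ∀ D, Dom G.Adj M D → E.card + k + 1 < D.card) ∧
        ((∃ D ⊆ E, Dom (fun u v => ¬ G.Adj u v) M D) ∨
          ∀ D, Dom (fun u v => ¬ G.Adj u v) M D → E.card + k + 1 < D.card) := by
      by_cases c0 : ∃ D, Dom G.Adj M D ∧ D.card ≤ k + 1
      · obtain ⟨D, hD, hc⟩ := c0
        exact pick _ _ M k (fun _ h => h.1) (fun _ h => h.1) D hD hc
      · by_cases c1 : ∃ D, Dom (fun u v => ¬ G.Adj u v) M D ∧ D.card ≤ k + 1
        · obtain ⟨D, hD, hc⟩ := c1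
          obtain ⟨E, e1, e2, e3, e4⟩ :=
            pick _ (Dom G.Adj M) M k (fun _ h => h.1) (fun _ h => h.1) D hD hc
          exact ⟨E, e1, e2, e4, e3⟩
        · push Not at c0 c1
          exact ⟨∅, by simp, by simp, Or.inr fun D hD => by simpa using c0 D hD,
            Or.inr fun D hD => by simpa using c1 D hD⟩
    rcases core G k M hmod a b ha hb hab hS E hE h0 h1 with h' | ⟨y, h'⟩
    · exact ⟨a, by omega⟩
    · exact ⟨y, by omega⟩
  · push Not at hV
    obtain ⟨y⟩ := ‹Nonempty V›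
    refine ⟨y, (vfun_le G y ∅ (by simp) ?_).trans (by simp)⟩
    intro z _ w _ hz
    exact absurd (hV z y) hz

theorem result (X : ∀ V : Type, SimpleGraph V → Prop)
    (hX : ∀ (V : Type) (G : SimpleGraph V) (S : Set V), X V G → X S (G.induce S)) (k : ℕ)
    (hk : ∀ (V : Type) [Finite V] (G : SimpleGraph V), X V G → Prime G → gfun G ≤ k) :
    ∀ (V : Type) [Finite V] (G : SimpleGraph V), X V G → gfun G ≤ 4 * k + 4 := by
  intro V _ G hG
  refine up G _ fun S hS => ?_
  haveI : Nonempty S := hS.to_subtype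
  exact step (G.induce S) k fun M hM => hk M _ (hX _ _ M (hX _ _ S hG)) hM

end Pool.Agent.Results.MP_42f001_co.PrimeFun
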